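import Pool.Agent.Y246.LG.Stm

/-!
# Real parts on the real line (project LG of helper246, part LG-REAL)
-/

set_option autoImplicit false

namespace Pool.Agent.Y532.LG

open Pool.Agent.Y246.LG

theorem diff_iter (φ : ℂ → ℂ) (h : Differentiable ℂ φ) (j : ℕ) :
    Differentiable ℂ (iteratedDeriv j φ) := by
  have h1 : ContDiff ℂ (⊤ : ℕ∞) φ := h.contDiff
  exact h1.differentiable_iteratedDeriv j (by exact_mod_cast WithTop.coe_lt_top j)

theorem t_real : S_REAL := by
  intro φ h j
  induction j with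
  | zero => intro x; simp [iteratedDeriv_zero]
  | succ j ih =>
    intro x
    rw [iteratedDeriv_succ, iteratedDeriv_succ]
    have h1 : iteratedDeriv j (fun y : ℝ => (φ y).re) =
        fun x : ℝ => (iteratedDeriv j φ (x : ℂ)).re := funext ih
    rw [h1]
    exact ((diff_iter φ h j (x : ℂ)).hasDerivAt.real_of_complex).deriv

theorem lag_eq (φ : ℂ → ℂ) (h : Differentiable ℂ φ) (n : ℕ) :
    ∀ (k : ℕ) (x : ℝ), laguerreT (fun y : ℝ => (φ y).re) n k x =
      LT n (fun j => (iteratedDeriv j φ (x : ℂ)).re) k := by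
  induction n with
  | zero =>
    intro k x
    unfold laguerreT Pool.Agent.Y246.LG.LT
    rw [t_real φ h, t_real φ h, t_real φ h]
  | succ n ih =>
    intro k x
    unfold laguerreT Pool.Agent.Y246.LG.LT
    rw [ih, ih, ih]

theorem cont_LT (g : ℕ → ℝ → ℝ) (hg : ∀ j, Continuous (g j)) (n : ℕ) :
    ∀ k : ℕ, Continuous fun x => LT n (fun j => g j x) k := by
  induction n with
  | zero =>
    intro k
    unfold Pool.Agent.Y246.LG.LT
    exact ((hg k).pow 2).sub ((hg (k - 1)).mul (hg (k + 1)))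
  | succ n ih =>
    intro k
    unfold Pool.Agent.Y246.LG.LT
    exact ((ih k).pow 2).sub ((ih (k - 1)).mul (ih (k + 1)))

theorem t_near : S_NEAR := by
  intro φ h n k hneg
  have hc : Continuous fun x : ℝ => LT n (fun j => (iteratedDeriv j φ (x : ℂ)).re) k := by
    refine cont_LT (fun j x => (iteratedDeriv j φ (x : ℂ)).re) (fun j => ?_) n k
    exact Complex.continuous_re.comp ((diff_iter φ h j).continuous.comp Complex.continuous_ofReal)
  have h0 : (fun x : ℝ => LT n (fun j => (iteratedDeriv j φ (x : ℂ)).re) k) 0 < 0 := by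
    show LT n (fun j => (iteratedDeriv j φ ((0 : ℝ) : ℂ)).re) k < 0
    rw [Complex.ofReal_zero]
    exact hneg
  have h1 := hc.continuousAt.eventually (gt_mem_nhds h0)
  obtain ⟨ε, hε, h2⟩ := Metric.eventually_nhds_iff.mp h1
  refine ⟨ε / 2, by positivity, fun x hx0 hxb => ?_⟩
  rw [lag_eq φ h n k x]
  refine h2 ?_
  rw [Real.dist_eq, sub_zero, abs_of_nonneg hx0]
  linarith

end Pool.Agent.Y532.LG
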